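import Pool.Agent.SqF9.Conv3
import Pool.Agent.SqF9.Conv5
import Pool.Agent.SqF9.Conv6

/-!
# The zeros of `ζ` from the integrability of the first mean
-/

set_option autoImplicit false

open Complex Filter Topology Set MeasureTheory Pool.Agent.Hadamard Pool.Agent.ANT
  Pool.Agent.SqFull Pool.Agent.SqF9

namespace Pool.Agent.SqF9L

/-- The transform of the first mean converges to the right of `κ`. -/
def IN (κ : ℝ) : Prop := ∀ σ : ℝ, κ < σ →
  IntegrableOn (fun x : ℝ => |SqF9.D1 x| * x ^ (-(σ + 1))) (Ioi 1)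

lemma TR_D1_diffI {κ : ℝ} (hM : IN κ) {s : ℂ} (hs : κ < s.re) :
    DifferentiableAt ℂ (TR D1) s :=
  TR_differentiableAt measurable_D1.aestronglyMeasurable (fun _ h => hM _ h) hs

/-- The functional identity between the transform of `Δ` and `ζ(2s)ζ(3s)/ζ(6s)`. -/
lemma identityI {κ : ℝ} (hM : IN κ) (h10 : 0 ≤ κ) (hκ : κ < 1) {s : ℂ} (hs : κ < s.re) :
    6 * s * ZZ (6 * s) * ((s + 1) * TR D1 s * (s - 1 / 2) * (s - 1 / 3) + c₁ * (s - 1 / 3) +
      c₂ * (s - 1 / 2)) = (6 * s - 1) * (ZZ (2 * s) * ZZ (3 * s)) := by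
  have hU : IsPreconnected {z : ℂ | κ < z.re} := (convex_halfSpace_re_gt _).isPreconnected
  have hO : IsOpen {z : ℂ | κ < z.re} := isOpen_lt continuous_const Complex.continuous_re
  have hZ : ∀ (k : ℝ), 0 < k → ∀ z ∈ {z : ℂ | κ < z.re},
      DifferentiableAt ℂ (fun z => ZZ (k * z)) z := by
    intro k hk z hz
    have hz' : κ < z.re := hz
    have h1 : 0 < ((k:ℂ) * z).re := by
      rw [Complex.re_ofReal_mul]
      exact mul_pos hk (by linarith)
    exact (ZZ_differentiableAt h1).comp z (by fun_prop : DifferentiableAt ℂ (fun z => (k:ℂ) * z) z)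
  have hf : AnalyticOnNhd ℂ (fun s => 6 * s * ZZ (6 * s) * ((s + 1) * TR D1 s * (s - 1 / 2) * (s - 1 / 3) +
      c₁ * (s - 1 / 3) + c₂ * (s - 1 / 2))) {z : ℂ | κ < z.re} := by
    refine DifferentiableOn.analyticOnNhd (fun z hz => ?_) hO
    have h6 := hZ 6 (by norm_num) z hz
    push_cast at h6
    have hG : DifferentiableAt ℂ (fun s => (s + 1) * TR D1 s) z :=
      DifferentiableAt.mul (by fun_prop) (TR_D1_diffI hM hz)
    exact (DifferentiableAt.mul (DifferentiableAt.mul (by fun_prop) h6)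
      (DifferentiableAt.add (DifferentiableAt.add (DifferentiableAt.mul
        (DifferentiableAt.mul hG (by fun_prop)) (by fun_prop)) (by fun_prop))
        (by fun_prop))).differentiableWithinAt
  have hg : AnalyticOnNhd ℂ (fun s => (6 * s - 1) * (ZZ (2 * s) * ZZ (3 * s)))
      {z : ℂ | κ < z.re} := by
    refine DifferentiableOn.analyticOnNhd (fun z hz => ?_) hO
    have h2 := hZ 2 (by norm_num) z hz
    have h3 := hZ 3 (by norm_num) z hz
    push_cast at h2 h3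
    exact (DifferentiableAt.mul (by fun_prop) (h2.mul h3)).differentiableWithinAt
  have h2 : (2:ℂ) ∈ {z : ℂ | κ < z.re} := by
    simp only [mem_ofPred_eq, Complex.re_ofNat]
    linarith
  refine hf.eqOn_of_preconnected_of_eventuallyEq hg hU h2 ?_ hs
  have h3 : ∀ᶠ z : ℂ in 𝓝 2, 1 < z.re := by
    refine (isOpen_lt continuous_const Complex.continuous_re).mem_nhds ?_
    simp
  filter_upwards [h3] with z hz
  have hz0 : z ≠ 0 := by rintro rfl; simp at hz; linarith
  have hz2 : z - 1 / 2 ≠ 0 := by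
    intro h
    have := congrArg Complex.re h
    norm_num at this
    linarith
  have hz3 : z - 1 / 3 ≠ 0 := by
    intro h
    have := congrArg Complex.re h
    norm_num at this
    linarith
  have n : ∀ k : ℝ, 2 ≤ k → ((k:ℂ) * z) ≠ 1 ∧ 1 < ((k:ℂ) * z).re := by
    intro k hk
    have h1 : 1 < ((k:ℂ) * z).re := by
      rw [Complex.re_ofReal_mul]
      nlinarith
    exact ⟨fun h => by rw [h] at h1; simp at h1, h1⟩
  have n2 := n 2 le_rfl
  have n3 := n 3 (by norm_num)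
  have n6 := n 6 (by norm_num)
  push_cast at n2 n3 n6
  have hzeta6 : riemannZeta (6 * z) ≠ 0 := riemannZeta_ne_zero_of_one_lt_re n6.2
  have hG : GG z = riemannZeta (2 * z) * riemannZeta (3 * z) / riemannZeta (6 * z) / z -
        c₁ / (z - 1 / 2) - c₂ / (z - 1 / 3) := mellin_Delta (by linarith)
  have hT : (z + 1) * TR D1 z = GG z := by
    have h1 : z + 1 ≠ 0 := by
      intro h
      have := congrArg Complex.re h
      simp at this
      linarith
    have h2 : TR D1 z = GG z / (z + 1) := cesaro hz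
    rw [h2]
    field_simp
  rw [hT, hG, ZZ_eq (by linarith [n2.2]) n2.1, ZZ_eq (by linarith [n3.2]) n3.1,
    ZZ_eq (by linarith [n6.2]) n6.1]
  generalize riemannZeta (6 * z) = z6 at hzeta6 ⊢
  generalize riemannZeta (2 * z) = z2
  generalize riemannZeta (3 * z) = z3
  have e2 : 2 * z - 1 = 2 * (z - 1 / 2) := by ring
  have e3 : 3 * z - 1 = 3 * (z - 1 / 3) := by ring
  rw [e2, e3]
  generalize z - 1 / 2 = u at hz2 ⊢
  generalize z - 1 / 3 = v at hz3 ⊢
  field_simp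
  ring

/-- A zero of `ζ` to the right of `6 κ` gives a zero at one half or one third of it. -/
lemma zero_halvesI {κ : ℝ} (hM : IN κ) (h10 : 0 ≤ κ) (hκ : κ < 1) {ρ : ℂ} (hρ : ρ ∈ ntz)
    (h : 6 * κ < ρ.re) :
    ρ / 2 ∈ ntz ∨ ρ / 3 ∈ ntz := by
  have hxi : xiF ρ = 0 := xiF_eq_zero_iff.mpr hρ
  have hZ : ZZ ρ = 0 := by unfold ZZ; rw [hxi, zero_div]
  have hs : κ < (ρ / 6).re := by
    have : (ρ / 6).re = ρ.re / 6 := by simp
    rw [this]; linarith
  have h1 := identityI hM h10 hκ hs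
  have e6 : 6 * (ρ / 6) = ρ := by ring
  have e2 : 2 * (ρ / 6) = ρ / 3 := by ring
  have e3 : 3 * (ρ / 6) = ρ / 2 := by ring
  rw [e6, e2, e3, hZ, mul_zero, zero_mul] at h1
  have hne : ρ - 1 ≠ 0 := by
    intro h2
    have : ρ = 1 := by linear_combination h2
    have h3 := hρ.2.2
    rw [this] at h3
    simp at h3
  have h4 := (mul_eq_zero.mp h1.symm).resolve_left hne
  have key : ∀ z : ℂ, 0 < z.re → ZZ z = 0 → z ∈ ntz := by
    intro z hz h5
    rw [← xiF_eq_zero_iff]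
    unfold ZZ at h5
    have h0 : z ≠ 0 := by rintro rfl; simp at hz
    exact (div_eq_zero_iff.mp h5).resolve_right (mul_ne_zero h0 (Gammaℝ_ne_zero_of_re_pos hz))
  have r2 : (ρ / 2).re = ρ.re / 2 := by simp
  have r3 : (ρ / 3).re = ρ.re / 3 := by simp
  rcases mul_eq_zero.mp h4 with h5 | h5
  · exact Or.inr (key _ (by rw [r3]; linarith) h5)
  · exact Or.inl (key _ (by rw [r2]; linarith) h5)

/-- The converse, for every exponent. -/
theorem nzb_of_in {κ : ℝ} (hM : IN κ) (h10 : 0 ≤ κ)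
    (hR : ∀ s : ℂ, 2 * (1 - 6 * κ) ≤ s.re → s.re < 1 → riemannZeta s ≠ 0) :
    ∀ s : ℂ, 6 * κ < s.re → s.re < 1 → riemannZeta s ≠ 0 := by
  intro ρ h h1 h0
  have hρ : ρ ∈ ntz := ⟨h0, by linarith, h1⟩
  set A : Set ntz := {σ : ntz | 6 * κ < (σ:ℂ).re ∧ |(σ:ℂ).im| ≤ |ρ.im|} with hA
  have hfin : A.Finite := by
    refine (finite_ntz (1 + |ρ.im|)).subset fun σ hσ => ?_
    obtain ⟨h1, h3⟩ := hσ
    have h4 := Complex.norm_le_abs_re_add_abs_im (σ:ℂ)
    have h6 := σ.2.2.2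
    have h5 : |(σ:ℂ).re| ≤ 1 := abs_le.mpr ⟨by linarith, by linarith⟩
    simp only [mem_ofPred_eq]
    linarith
  have hne : A.Nonempty := ⟨⟨ρ, hρ⟩, h, le_rfl⟩
  obtain ⟨a, ha, hmin⟩ := Set.exists_min_image A (fun σ => |(σ:ℂ).im|) hfin hne
  obtain ⟨a1, a3⟩ := ha
  have a2 : (a:ℂ).re < 2 * (1 - 6 * κ) := by
    by_contra hcon
    push Not at hcon
    exact hR a hcon a.2.2.2 a.2.1
  have him : 0 < |(a:ℂ).im| := abs_pos.mpr (ntz_im_ne_zero a.2)
  have key : ∀ b : ℂ, b ∈ ntz → 6 * κ < b.re → |b.im| ≤ |(a:ℂ).im| / 2 → False := by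
    intro b hb b1 b3
    have h1 := hmin ⟨b, hb⟩ ⟨b1, by simp only; linarith⟩
    simp only at h1
    linarith
  rcases zero_halvesI hM (by linarith) (by linarith) a.2 a1 with h2 | h3
  · refine key (1 - (a:ℂ) / 2) (ntz_one_sub.mpr h2) ?_ ?_
    · have : (1 - (a:ℂ) / 2).re = 1 - (a:ℂ).re / 2 := by simp
      rw [this]; linarith
    · have : (1 - (a:ℂ) / 2).im = -((a:ℂ).im / 2) := by simp
      rw [this, abs_neg, abs_div, abs_of_pos (by norm_num : (0:ℝ) < 2)]
  · refine key (1 - (a:ℂ) / 3) (ntz_one_sub.mpr h3) ?_ ?_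
    · have : (1 - (a:ℂ) / 3).re = 1 - (a:ℂ).re / 3 := by simp
      rw [this]; linarith
    · have : (1 - (a:ℂ) / 3).im = -((a:ℂ).im / 3) := by simp
      rw [this, abs_neg, abs_div, abs_of_pos (by norm_num : (0:ℝ) < 3)]
      linarith

/-- The exponent `1/12` for the first mean implies the Riemann hypothesis. -/
theorem rh_of_in (hM : IN (1 / 12)) : RiemannHypothesis := by
  refine rh_of_nzb fun s h1 h2 => ?_
  refine nzb_of_in hM (by norm_num) (fun s h3 h4 => ?_) s (by linarith) h2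
  exfalso
  linarith

/-- The exponent of the first mean is at least `1/12`. -/
theorem not_in {κ : ℝ} (hκ : κ < 1 / 12) : ¬ IN κ := by
  intro hM
  -- raise the exponent to a nonnegative one below `1/12`
  set τ := max κ 0 with hτ
  have hτ0 : 0 ≤ τ := le_max_right _ _
  have hτ1 : τ < 1 / 12 := max_lt hκ (by norm_num)
  have up : ∀ τ' : ℝ, κ ≤ τ' → IN τ' := fun τ' h σ hσ => hM σ (by linarith)
  have hRH := rh_of_in (up (1 / 12) hκ.le)
  obtain ⟨ρ, hρ⟩ := exists_ntz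
  have hre : ∀ z : ℂ, z ∈ ntz → z.re = 1 / 2 := by
    intro z hz
    refine hRH z hz.1 ?_ ?_
    · rintro ⟨n, rfl⟩
      have h1 := hz.2.1
      have h4 : (-2 * ((n:ℂ) + 1)).re = -2 * ((n:ℝ) + 1) := by simp
      rw [h4] at h1
      have : (0:ℝ) ≤ n := n.cast_nonneg
      linarith
    · rintro rfl
      have := hz.2.2
      simp at this
  have h1 := hre ρ hρ
  rcases zero_halvesI (up τ (le_max_left _ _)) hτ0 (by linarith) hρ (by rw [h1]; linarith)
    with h2 | h2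
  · have h3 := hre _ h2
    have : (ρ / 2).re = ρ.re / 2 := by simp
    rw [this, h1] at h3
    norm_num at h3
  · have h3 := hre _ h2
    have : (ρ / 3).re = ρ.re / 3 := by simp
    rw [this, h1] at h3
    norm_num at h3

/-- No zeros in the strip `b < Re s < 2 (1 - b)`. -/
theorem two_sub_leI {b : ℝ} (hb0 : 1 / 2 ≤ b) (hb1 : b ≤ 3 / 5) (hM : IN (b / 6)) {ρ : ℂ}
    (hρ : ρ ∈ ntz) (h : b < ρ.re) : 2 * (1 - b) ≤ ρ.re := by
  by_contra hlt
  push Not at hlt
  set A : Set ntz := {σ : ntz | b < (σ:ℂ).re ∧ (σ:ℂ).re < 2 * (1 - b) ∧ |(σ:ℂ).im| ≤ |ρ.im|}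
    with hA
  have hfin : A.Finite := by
    refine (finite_ntz (1 + |ρ.im|)).subset fun σ hσ => ?_
    obtain ⟨h1, h2, h3⟩ := hσ
    have h4 := Complex.norm_le_abs_re_add_abs_im (σ:ℂ)
    have h6 := σ.2.2.2
    have h5 : |(σ:ℂ).re| ≤ 1 := abs_le.mpr ⟨by linarith, by linarith⟩
    simp only [mem_ofPred_eq]
    linarith
  have hne : A.Nonempty := ⟨⟨ρ, hρ⟩, h, hlt, le_rfl⟩
  obtain ⟨a, ha, hmin⟩ := Set.exists_min_image A (fun σ => |(σ:ℂ).im|) hfin hne
  obtain ⟨a1, a2, a3⟩ := ha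
  have him : 0 < |(a:ℂ).im| := abs_pos.mpr (ntz_im_ne_zero a.2)
  have key : ∀ z : ℂ, z ∈ ntz → b < z.re → z.re < 2 * (1 - b) → |z.im| ≤ |(a:ℂ).im| / 2 →
      False := by
    intro z hz b1 b2 b3
    have h1 := hmin ⟨z, hz⟩ ⟨b1, b2, by simp only; linarith⟩
    simp only at h1
    linarith
  rcases zero_halvesI hM (by linarith) (by linarith) a.2 (by linarith) with h2 | h3
  · refine key (1 - (a:ℂ) / 2) (ntz_one_sub.mpr h2) ?_ ?_ ?_
    · have : (1 - (a:ℂ) / 2).re = 1 - (a:ℂ).re / 2 := by simp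
      rw [this]; linarith
    · have : (1 - (a:ℂ) / 2).re = 1 - (a:ℂ).re / 2 := by simp
      rw [this]; linarith
    · have : (1 - (a:ℂ) / 2).im = -((a:ℂ).im / 2) := by simp
      rw [this, abs_neg, abs_div, abs_of_pos (by norm_num : (0:ℝ) < 2)]
  · refine key (1 - (a:ℂ) / 3) (ntz_one_sub.mpr h3) ?_ ?_ ?_
    · have : (1 - (a:ℂ) / 3).re = 1 - (a:ℂ).re / 3 := by simp
      rw [this]; linarith
    · have : (1 - (a:ℂ) / 3).re = 1 - (a:ℂ).re / 3 := by simp
      rw [this]; linarith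
    · have : (1 - (a:ℂ) / 3).im = -((a:ℂ).im / 3) := by simp
      rw [this, abs_neg, abs_div, abs_of_pos (by norm_num : (0:ℝ) < 3)]
      linarith

/-- The zeros to the right of `b` are far to the right and twice a zero. -/
theorem zeros_of_in_strip {b : ℝ} (hb0 : 1 / 2 ≤ b) (hb1 : b ≤ 3 / 5) (hM : IN (b / 6)) :
    ∀ s : ℂ, b < s.re → s.re < 1 → riemannZeta s = 0 →
      2 * (1 - b) ≤ s.re ∧ riemannZeta (s / 2) = 0 := by
  intro s h1 h2 h3
  have hs : s ∈ ntz := ⟨h3, by linarith, h2⟩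
  have h4 := two_sub_leI hb0 hb1 hM hs h1
  refine ⟨h4, ?_⟩
  rcases zero_halvesI hM (by linarith) (by linarith) hs (by linarith) with h5 | h5
  · exact h5.1
  · exfalso
    have e : (1 - s / 3).re = 1 - s.re / 3 := by simp
    have h6 := two_sub_leI hb0 hb1 hM (ntz_one_sub.mpr h5) (by rw [e]; linarith)
    rw [e] at h6
    linarith

end Pool.Agent.SqF9L
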