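import Pool.Agent.SqF9.Conv3

/-!
# Landau's theorem for the transform of a nonnegative function
-/

set_option autoImplicit false

open Complex Filter Topology Set MeasureTheory

namespace Pool.Agent.SqF9L

open Pool.Agent.SqF9

/-- integrability of `|g| x^{-σ-1}` -/
def IG (g : ℝ → ℝ) (σ : ℝ) : Prop := IntegrableOn (fun x : ℝ => |g x| * x ^ (-(σ + 1))) (Ioi 1)

lemma IG_mono {g : ℝ → ℝ} (hm : AEStronglyMeasurable g (volume.restrict (Ioi 1))) {σ τ : ℝ} (h : σ ≤ τ)
    (hI : IG g σ) : IG g τ := by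
  unfold IG at hI ⊢
  refine Integrable.mono' hI ?_ ?_
  · exact (continuous_abs.comp_aestronglyMeasurable hm).mul
      (measurable_id.pow_const (-(τ + 1))).aestronglyMeasurable
  · refine (ae_restrict_iff' measurableSet_Ioi).mpr (Eventually.of_forall fun x hx => ?_)
    have hx1 : (1:ℝ) < x := hx
    rw [Real.norm_eq_abs, abs_of_nonneg (by positivity)]
    gcongr
    exact hx1.le

/-- the terms -/
noncomputable def TT (g : ℝ → ℝ) (σ : ℝ) (n : ℕ) (t : ℝ) : ℝ :=
  |g t| * t ^ (-(σ + 1)) * (Real.log t ^ n / n.factorial)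

lemma TT_nonneg (g : ℝ → ℝ) (σ : ℝ) (n : ℕ) {t : ℝ} (ht : 1 < t) : 0 ≤ TT g σ n t := by
  unfold TT
  have := Real.log_pos ht
  positivity

lemma TT_meas {g : ℝ → ℝ} (hm : AEStronglyMeasurable g (volume.restrict (Ioi 1))) (σ : ℝ) (n : ℕ) :
    AEStronglyMeasurable (TT g σ n) (volume.restrict (Ioi 1)) := by
  unfold TT
  exact ((continuous_abs.comp_aestronglyMeasurable hm).mul
      (measurable_id.pow_const (-(σ + 1))).aestronglyMeasurable).mul
      ((Real.measurable_log.pow_const n).div_const _).aestronglyMeasurable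

lemma TT_le (g : ℝ → ℝ) (σ : ℝ) {r : ℝ} (hr : 0 ≤ r) (N : ℕ) {t : ℝ} (ht : 1 < t) :
    ∑ n ∈ Finset.range N, TT g σ n t * r ^ n ≤ |g t| * t ^ (-(σ - r + 1)) := by
  have h0 : 0 < t := by linarith
  have hl := Real.log_pos ht
  have h1 : ∑ n ∈ Finset.range N, TT g σ n t * r ^ n =
      |g t| * t ^ (-(σ + 1)) * ∑ n ∈ Finset.range N, (r * Real.log t) ^ n / n.factorial := by
    rw [Finset.mul_sum]
    refine Finset.sum_congr rfl fun n _ => ?_
    unfold TT
    rw [mul_pow]
    ring
  rw [h1]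
  have h2 : ∑ n ∈ Finset.range N, (r * Real.log t) ^ n / n.factorial ≤ Real.exp (r * Real.log t) :=
    Real.sum_le_exp_of_nonneg (by positivity) N
  have h3 : Real.exp (r * Real.log t) = t ^ r := by
    rw [Real.rpow_def_of_pos h0, mul_comm]
  rw [h3] at h2
  calc |g t| * t ^ (-(σ + 1)) * ∑ n ∈ Finset.range N, (r * Real.log t) ^ n / n.factorial
      ≤ |g t| * t ^ (-(σ + 1)) * t ^ r := by gcongr
    _ = |g t| * t ^ (-(σ - r + 1)) := by
        rw [mul_assoc, ← Real.rpow_add h0]
        congr 2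
        ring

lemma TT_int {g : ℝ → ℝ} (hm : AEStronglyMeasurable g (volume.restrict (Ioi 1))) {σ r : ℝ} (hr : 0 < r)
    (hI : IG g (σ - r)) (n : ℕ) : IntegrableOn (TT g σ n) (Ioi 1) := by
  have h1 : IntegrableOn (fun t => TT g σ n t * r ^ n) (Ioi 1) := by
    refine Integrable.mono' hI ((TT_meas hm σ n).mul_const _) ?_
    refine (ae_restrict_iff' measurableSet_Ioi).mpr (Eventually.of_forall fun t ht => ?_)
    have ht1 : (1:ℝ) < t := ht
    have h2 := TT_nonneg g σ n ht1
    rw [Real.norm_eq_abs, abs_of_nonneg (by positivity)]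
    refine le_trans ?_ (TT_le g σ hr.le (n + 1) ht1)
    refine Finset.single_le_sum (f := fun n => TT g σ n t * r ^ n) (fun i _ => ?_)
      (Finset.mem_range.mpr (Nat.lt_succ_self n))
    have := TT_nonneg g σ i ht1
    positivity
  have h3 := h1.mul_const ((r ^ n)⁻¹)
  have hrn : r ^ n ≠ 0 := (pow_pos hr n).ne'
  refine h3.congr (Eventually.of_forall fun t => ?_)
  simp only
  rw [mul_assoc, mul_inv_cancel₀ hrn, mul_one]

/-- the coefficients -/
noncomputable def cc (g : ℝ → ℝ) (σ : ℝ) (n : ℕ) : ℝ := ∫ t in Ioi (1:ℝ), TT g σ n t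

lemma cc_nonneg (g : ℝ → ℝ) (σ : ℝ) (n : ℕ) : 0 ≤ cc g σ n :=
  setIntegral_nonneg measurableSet_Ioi fun _ ht => TT_nonneg g σ n ht

/-- summability of the coefficients -/
lemma cc_summable {g : ℝ → ℝ} (hm : AEStronglyMeasurable g (volume.restrict (Ioi 1))) {σ r : ℝ} (hr : 0 < r)
    (hI : IG g (σ - r)) : Summable fun n => cc g σ n * r ^ n := by
  refine summable_of_sum_range_le (c := ∫ t in Ioi (1:ℝ), |g t| * t ^ (-(σ - r + 1)))
    (fun n => mul_nonneg (cc_nonneg g σ n) (by positivity)) fun N => ?_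
  have h1 : ∑ n ∈ Finset.range N, cc g σ n * r ^ n =
      ∫ t in Ioi (1:ℝ), ∑ n ∈ Finset.range N, TT g σ n t * r ^ n := by
    rw [integral_finsetSum]
    · refine Finset.sum_congr rfl fun n _ => ?_
      rw [integral_mul_const]
      rfl
    · intro n _
      exact (TT_int hm hr hI n).mul_const _
  rw [h1]
  refine setIntegral_mono_on ?_ hI measurableSet_Ioi fun t ht => TT_le g σ hr.le N ht
  exact integrable_finsetSum _ fun n _ => (TT_int hm hr hI n).mul_const _

/-- the power series of the transform -/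
lemma TR_hasSum {g : ℝ → ℝ} (hm : AEStronglyMeasurable g (volume.restrict (Ioi 1)))
    (h0 : ∀ t, 1 < t → 0 ≤ g t) {σ r : ℝ} (hr : 0 < r) (hI : IG g (σ - r)) {z : ℂ} (hz : ‖z‖ ≤ r) :
    HasSum (fun n => z ^ n • (((-1) ^ n * cc g σ n : ℝ) : ℂ)) (TR g (σ + z)) := by
  have h1 := hasSum_integral_of_summable_integral_norm (μ := volume.restrict (Ioi (1:ℝ)))
    (F := fun (n : ℕ) (t : ℝ) => (TT g σ n t : ℂ) * (-z) ^ n) ?_ ?_
  · have h2 : ∀ n, ∫ t in Ioi (1:ℝ), (TT g σ n t : ℂ) * (-z) ^ n = z ^ n • (((-1) ^ n * cc g σ n : ℝ) : ℂ) := by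
      intro n
      rw [integral_mul_const, integral_complex_ofReal, smul_eq_mul, neg_pow]
      unfold cc
      push_cast
      ring
    simp only [h2] at h1
    have h3 : ∫ t in Ioi (1:ℝ), ∑' n, (TT g σ n t : ℂ) * (-z) ^ n = TR g (σ + z) := by
      unfold TR
      refine setIntegral_congr_fun measurableSet_Ioi fun t ht => ?_
      have ht1 : (1:ℝ) < t := ht
      have ht0 : (0:ℝ) < t := by linarith
      have h4 : ∀ n : ℕ, (TT g σ n t : ℂ) * (-z) ^ n =
          ((g t : ℂ) * (t:ℂ) ^ (-((σ:ℂ) + 1))) * ((-z * Real.log t) ^ n / n.factorial) := by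
        intro n
        unfold TT
        rw [abs_of_nonneg (h0 t ht1), mul_pow]
        push_cast
        rw [Complex.ofReal_cpow ht0.le]
        push_cast
        ring
      simp only [h4]
      rw [tsum_mul_left]
      have h5 : ∑' n : ℕ, (-z * Real.log t) ^ n / (n.factorial : ℂ) = Complex.exp (-z * Real.log t) := by
        rw [Complex.exp_eq_exp_ℂ, NormedSpace.exp_eq_tsum_div]
      rw [h5]
      have h6 : (t:ℂ) ^ (-((σ:ℂ) + z + 1)) = (t:ℂ) ^ (-((σ:ℂ) + 1)) * Complex.exp (-z * Real.log t) := by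
        have ht : (t:ℂ) ≠ 0 := by exact_mod_cast ht0.ne'
        rw [show -((σ:ℂ) + z + 1) = -((σ:ℂ) + 1) + -z by ring, Complex.cpow_add _ _ ht]
        congr 1
        rw [Complex.cpow_def_of_ne_zero ht, ← Complex.ofReal_log ht0.le]
        ring_nf
      rw [h6]
      ring
    rw [h3] at h1
    exact h1
  · intro n
    exact ((TT_int hm hr hI n).ofReal).mul_const _
  · have h2 := cc_summable hm hr hI
    refine Summable.of_nonneg_of_le (fun n => integral_nonneg fun t => norm_nonneg _) (fun n => ?_) h2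
    have h3 : ∫ t in Ioi (1:ℝ), ‖(TT g σ n t : ℂ) * (-z) ^ n‖ = cc g σ n * ‖z‖ ^ n := by
      unfold cc
      rw [← integral_mul_const]
      refine setIntegral_congr_fun measurableSet_Ioi fun t ht => ?_
      rw [norm_mul, norm_pow, norm_neg, Complex.norm_real, Real.norm_eq_abs, abs_of_nonneg (TT_nonneg g σ n ht)]
    rw [h3]
    exact mul_le_mul_of_nonneg_left (pow_le_pow_left₀ (norm_nonneg _) hz n) (cc_nonneg g σ n)

/-- back from the summability to the integral -/
lemma IG_of_summable {g : ℝ → ℝ} (hm : AEStronglyMeasurable g (volume.restrict (Ioi 1))) {σ r r0 : ℝ}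
    (hr : 0 < r) (hr0 : 0 < r0) (hI : IG g (σ - r0)) (hs : Summable fun n => cc g σ n * r ^ n) :
    IG g (σ - r) := by
  have hmeas : AEStronglyMeasurable (fun x : ℝ => |g x| * x ^ (-(σ - r + 1))) (volume.restrict (Ioi 1)) :=
    (continuous_abs.comp_aestronglyMeasurable hm).mul
      (measurable_id.pow_const (-(σ - r + 1))).aestronglyMeasurable
  refine ⟨hmeas, ?_⟩
  rw [hasFiniteIntegral_iff_ofReal ((ae_restrict_iff' measurableSet_Ioi).mpr
    (Eventually.of_forall fun t ht => by
      have : (1:ℝ) < t := ht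
      have : (0:ℝ) < t := by linarith
      simp only [Pi.zero_apply]
      positivity))]
  have h1 : ∫⁻ t in Ioi (1:ℝ), ENNReal.ofReal (|g t| * t ^ (-(σ - r + 1))) =
      ∫⁻ t in Ioi (1:ℝ), ∑' n, ENNReal.ofReal (TT g σ n t * r ^ n) := by
    refine setLIntegral_congr_fun measurableSet_Ioi fun t ht => ?_
    have ht1 : (1:ℝ) < t := ht
    have ht0 : (0:ℝ) < t := by linarith
    have hterm : ∀ n, 0 ≤ TT g σ n t * r ^ n := fun n => mul_nonneg (TT_nonneg g σ n ht1) (by positivity)
    have h4 : ∀ n : ℕ, TT g σ n t * r ^ n =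
        (|g t| * t ^ (-(σ + 1))) * ((r * Real.log t) ^ n / n.factorial) := by
      intro n
      unfold TT
      rw [mul_pow]
      ring
    have h5 : HasSum (fun n : ℕ => (r * Real.log t) ^ n / (n.factorial : ℝ)) (Real.exp (r * Real.log t)) := by
      rw [Real.exp_eq_exp_ℝ]
      exact NormedSpace.expSeries_div_hasSum_exp _
    have h6 := h5.mul_left (|g t| * t ^ (-(σ + 1)))
    have h7 : |g t| * t ^ (-(σ + 1)) * Real.exp (r * Real.log t) = |g t| * t ^ (-(σ - r + 1)) := by
      rw [mul_comm r, ← Real.rpow_def_of_pos ht0, mul_assoc, ← Real.rpow_add ht0]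
      congr 2
      ring
    rw [h7] at h6
    simp only [← h4] at h6
    rw [← h6.tsum_eq, ENNReal.ofReal_tsum_of_nonneg hterm h6.summable]
  rw [h1, lintegral_tsum (fun n => ((TT_meas hm σ n).mul_const _).aemeasurable.ennreal_ofReal)]
  have h2 : ∀ n, ∫⁻ t in Ioi (1:ℝ), ENNReal.ofReal (TT g σ n t * r ^ n) = ENNReal.ofReal (cc g σ n * r ^ n) := by
    intro n
    rw [← ofReal_integral_eq_lintegral_ofReal ((TT_int hm hr0 hI n).mul_const _)
      ((ae_restrict_iff' measurableSet_Ioi).mpr (Eventually.of_forall fun t ht =>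
        mul_nonneg (TT_nonneg g σ n ht) (by positivity)))]
    rw [integral_mul_const]
    rfl
  simp only [h2]
  rw [← ENNReal.ofReal_tsum_of_nonneg (fun n => mul_nonneg (cc_nonneg g σ n) (by positivity)) hs]
  exact ENNReal.ofReal_lt_top

theorem IG_extend {g : ℝ → ℝ} (hm : AEStronglyMeasurable g (volume.restrict (Ioi 1)))
    (h0 : ∀ t, 1 < t → 0 ≤ g t) {σ R r0 : ℝ} (hr0 : 0 < r0) (hI : IG g (σ - r0)) {H : ℂ → ℂ}
    (hH : DifferentiableOn ℂ H (Metric.ball (σ:ℂ) R)) (hEq : ∀ᶠ z in 𝓝 (0:ℂ), TR g (σ + z) = H (σ + z))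
    {r : ℝ} (hr : 0 < r) (hrR : r < R) : IG g (σ - r) := by
  obtain ⟨R', hR1, hR2⟩ := exists_between hrR
  have hR0 : 0 < R' := hr.trans hR1
  have hd : DifferentiableOn ℂ H (Metric.closedBall (σ:ℂ) (R'.toNNReal)) := by
    rw [Real.coe_toNNReal _ hR0.le]
    exact hH.mono (Metric.closedBall_subset_ball hR2)
  have hp1 := hd.hasFPowerSeriesOnBall (by simpa using hR0)
  set c : ℕ → ℂ := fun n => (((-1) ^ n * cc g σ n : ℝ) : ℂ) with hc
  have hp2 : HasFPowerSeriesAt H (FormalMultilinearSeries.ofScalars ℂ c) (σ:ℂ) := by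
    rw [hasFPowerSeriesAt_iff]
    have h1 : ∀ᶠ z : ℂ in 𝓝 0, ‖z‖ ≤ r0 := by
      filter_upwards [Metric.closedBall_mem_nhds (0:ℂ) hr0] with z hz
      simpa using hz
    filter_upwards [h1, hEq] with z hz1 hz2
    have h2 := TR_hasSum hm h0 hr0 hI hz1
    rw [hz2] at h2
    simpa [FormalMultilinearSeries.coeff_ofScalars, hc] using h2
  have heq := hp1.hasFPowerSeriesAt.eq_formalMultilinearSeries hp2
  have h3 := hp1.hasSum (y := ((-r : ℝ) : ℂ)) (by
    rw [Metric.mem_eball, edist_zero_right]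
    rw [← ofReal_norm, Complex.norm_real, Real.norm_eq_abs, abs_neg, abs_of_pos hr]
    exact (ENNReal.ofReal_lt_ofReal_iff hR0).mpr hR1)
  rw [heq] at h3
  have h4 : Summable fun n => cc g σ n * r ^ n := by
    have h5 := h3.summable
    have h6 : ∀ n, (FormalMultilinearSeries.ofScalars ℂ c) n (fun _ => ((-r : ℝ) : ℂ)) =
        ((cc g σ n * r ^ n : ℝ) : ℂ) := by
      intro n
      rw [FormalMultilinearSeries.ofScalars_apply_eq, hc, smul_eq_mul]
      push_cast
      rw [neg_pow (r:ℂ)]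
      have : ((-1 : ℂ) ^ n) * (-1) ^ n = 1 := by rw [← mul_pow]; norm_num
      linear_combination ((cc g σ n : ℂ) * (r:ℂ) ^ n) * this
    simp only [h6] at h5
    exact Complex.summable_ofReal.mp h5
  exact IG_of_summable hm hr hr0 hI h4

/-- **Landau's theorem.** The transform of a nonnegative function converges as far to the left as it has an
analytic continuation along the real axis. -/
theorem landau {f : ℝ → ℝ} (hf : AEStronglyMeasurable f (volume.restrict (Ioi 1)))
    (h0 : ∀ x : ℝ, 1 < x → 0 ≤ f x) {a b : ℝ}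
    (hI : ∀ σ : ℝ, b < σ → IntegrableOn (fun x : ℝ => |f x| * x ^ (-(σ + 1))) (Ioi 1)) {G : ℂ → ℂ}
    (hG : ∀ x : ℝ, a < x → AnalyticAt ℂ G x) (hFG : ∀ s : ℂ, b < s.re → SqF9.TR f s = G s) :
    ∀ σ : ℝ, a < σ → IntegrableOn (fun x : ℝ => |f x| * x ^ (-(σ + 1))) (Ioi 1) := by
  intro σ0 hσ0
  by_contra hcon
  set S : Set ℝ := {σ | ¬ IG f σ} with hS
  have hne : S.Nonempty := ⟨σ0, hcon⟩
  have hbd : BddAbove S := ⟨b, fun σ hσ => by
    by_contra h
    push Not at h
    exact hσ (hI σ h)⟩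
  obtain ⟨σc, hσc⟩ : ∃ σc : ℝ, σc = sSup S := ⟨_, rfl⟩
  have h1 : σ0 ≤ σc := by rw [hσc]; exact le_csSup hbd hcon
  have hIG : ∀ σ, σc < σ → IG f σ := by
    intro σ hσ
    by_contra h
    have h2 := le_csSup hbd (show σ ∈ S from h)
    rw [← hσc] at h2
    linarith
  have hTR : ∀ s : ℂ, σc < s.re → DifferentiableAt ℂ (TR f) s := fun s hs => TR_differentiableAt hf hIG hs
  have hopen : IsOpen {s : ℂ | σc < s.re} := isOpen_lt continuous_const Complex.continuous_re
  have hTRa : ∀ s : ℂ, σc < s.re → AnalyticAt ℂ (TR f) s := fun s hs =>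
    (DifferentiableOn.analyticOnNhd (fun z hz => (hTR z hz).differentiableWithinAt) hopen) s hs
  -- equality on the real ray
  set U : Set ℂ := {s | s.im = 0 ∧ σc < s.re} with hU
  have hUc : Convex ℝ U := by
    have e1 : U = {s : ℂ | s.im = 0} ∩ {s : ℂ | σc < s.re} := by
      ext s
      simp only [hU, mem_ofPred_eq, mem_inter_iff]
    rw [e1]
    refine Convex.inter ?_ (convex_halfSpace_re_gt _)
    exact convex_hyperplane (f := fun s : ℂ => s.im) ⟨fun x y => Complex.add_im x y, fun c x => by simp⟩ 0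
  have hreal : ∀ s ∈ U, s = ((s.re : ℝ) : ℂ) := fun s hs => by
    apply Complex.ext
    · simp
    · simpa using hs.1
  have hUeq : ∀ s ∈ U, TR f s = G s := by
    have hp : ((max b σc + 1 : ℝ) : ℂ) ∈ U := by
      refine ⟨Complex.ofReal_im _, ?_⟩
      rw [Complex.ofReal_re]
      linarith [le_max_right b σc]
    intro s hs
    refine AnalyticOnNhd.eqOn_of_preconnected_of_eventuallyEq (f := TR f) (g := G) (U := U)
      (fun z hz => hTRa z hz.2) (fun z hz => ?_) hUc.isPreconnected hp ?_ hs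
    · rw [hreal z hz]
      exact hG _ (by linarith [hz.2])
    · have hop : IsOpen {s : ℂ | b < s.re} := isOpen_lt continuous_const Complex.continuous_re
      filter_upwards [hop.mem_nhds (show ((max b σc + 1 : ℝ) : ℂ) ∈ {s : ℂ | b < s.re} by
        simp only [mem_ofPred_eq, Complex.ofReal_re]
        linarith [le_max_left b σc])] with z hz
      exact hFG z hz
  -- a disc of analyticity about the point σc
  obtain ⟨η, hη, hball⟩ := Metric.eventually_nhds_iff_ball.mp (hG σc (by linarith)).eventually_analyticAt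
  set V : Set ℂ := {s : ℂ | σc < s.re} ∩ Metric.ball (σc : ℂ) η with hV
  have hVo : IsOpen V := hopen.inter Metric.isOpen_ball
  have hVc : Convex ℝ V := (convex_halfSpace_re_gt _).inter (convex_ball _ _)
  have hid : ∀ s ∈ V, TR f s = G s := by
    have hp : ((σc + η / 2 : ℝ) : ℂ) ∈ V := by
      refine ⟨?_, ?_⟩
      · simp only [mem_ofPred_eq, Complex.ofReal_re]
        linarith
      · rw [Metric.mem_ball, Complex.dist_eq, ← Complex.ofReal_sub, Complex.norm_real, Real.norm_eq_abs,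
          show σc + η / 2 - σc = η / 2 by ring, abs_of_pos (by linarith)]
        linarith
    intro s hs
    refine AnalyticOnNhd.eqOn_of_preconnected_of_eventuallyEq (f := TR f) (g := G) (U := V)
      (fun z hz => hTRa z hz.1) (fun z hz => hball z hz.2) hVc.isPreconnected hp ?_ hs
    refine ((hTRa _ hp.1).frequently_eq_iff_eventually_eq (hball _ hp.2)).mp ?_
    have h2 : Tendsto (fun x : ℝ => (x : ℂ)) (𝓝[≠] (σc + η / 2)) (𝓝[≠] ((σc + η / 2 : ℝ) : ℂ)) := by
      refine tendsto_nhdsWithin_of_tendsto_nhds_of_eventually_within _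
        ((Complex.continuous_ofReal.tendsto _).mono_left nhdsWithin_le_nhds) ?_
      filter_upwards [self_mem_nhdsWithin] with x hx
      have hx' : x ≠ σc + η / 2 := hx
      exact fun h => hx' (Complex.ofReal_injective h)
    refine h2.frequently (Filter.Eventually.frequently ?_)
    have h3 : ∀ᶠ x : ℝ in 𝓝 (σc + η / 2), σc < x := eventually_gt_nhds (by linarith)
    filter_upwards [h3.filter_mono nhdsWithin_le_nhds] with x hx
    exact hUeq x ⟨Complex.ofReal_im _, by simpa using hx⟩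
  classical
  set H' : ℂ → ℂ := fun s => if σc < s.re then TR f s else G s with hH'
  obtain ⟨δ, hδ⟩ : ∃ δ : ℝ, δ = min 1 (η ^ 2 / 8) := ⟨_, rfl⟩
  have hδ0 : 0 < δ := by
    rw [hδ]
    exact lt_min one_pos (by positivity)
  have hδ1 : δ ≤ 1 := by rw [hδ]; exact min_le_left _ _
  have hδ2 : δ ≤ η ^ 2 / 8 := by rw [hδ]; exact min_le_right _ _
  have hd : DifferentiableOn ℂ H' (Metric.ball ((σc + 1 : ℝ) : ℂ) (1 + δ)) := by
    intro s hs
    apply DifferentiableAt.differentiableWithinAt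
    by_cases hc : σc < s.re
    · refine (hTR s hc).congr_of_eventuallyEq ?_
      filter_upwards [hopen.mem_nhds hc] with z hz
      have hz' : σc < z.re := hz
      simp only [hH', if_pos hz']
    · push Not at hc
      rw [Metric.mem_ball, Complex.dist_eq] at hs
      have h2 : ‖s - ((σc + 1 : ℝ) : ℂ)‖ ^ 2 < (1 + δ) ^ 2 := by
        apply pow_lt_pow_left₀ hs (norm_nonneg _) (by norm_num)
      rw [Complex.sq_norm, Complex.normSq_apply] at h2
      simp only [Complex.sub_re, Complex.sub_im, Complex.ofReal_re, Complex.ofReal_im, sub_zero] at h2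
      have h3 : s ∈ Metric.ball (σc : ℂ) η := by
        rw [Metric.mem_ball, Complex.dist_eq]
        apply lt_of_pow_lt_pow_left₀ 2 hη.le
        rw [Complex.sq_norm, Complex.normSq_apply]
        simp only [Complex.sub_re, Complex.sub_im, Complex.ofReal_re, Complex.ofReal_im, sub_zero]
        nlinarith
      refine (hball s h3).differentiableAt.congr_of_eventuallyEq ?_
      filter_upwards [Metric.isOpen_ball.mem_nhds h3] with z hz
      simp only [hH']
      split_ifs with h6
      · exact hid z ⟨h6, hz⟩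
      · rfl
  have h6 : IG f (σc + 1 - (1 + δ / 2)) := by
    refine IG_extend hf h0 (σ := σc + 1) (R := 1 + δ) (r0 := 1 / 2) (by norm_num) (hIG _ (by linarith)) hd ?_
      (by linarith) (by linarith)
    have hcont : ContinuousAt (fun z : ℂ => ((σc + 1 : ℝ) : ℂ) + z) 0 := by fun_prop
    have h7 : {s : ℂ | σc < s.re} ∈ 𝓝 (((σc + 1 : ℝ) : ℂ) + 0) := hopen.mem_nhds (by simp)
    filter_upwards [hcont h7] with z hz
    have hz' : σc < (((σc + 1 : ℝ) : ℂ) + z).re := hz
    simp only [hH', if_pos hz']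
  have h7 : σc ≤ σc - δ / 2 := by
    nth_rw 1 [hσc]
    apply csSup_le hne
    intro σ hσ
    by_contra h8
    push Not at h8
    exact hσ (IG_mono hf (by linarith) h6)
  linarith

end Pool.Agent.SqF9L
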