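import Pool.Agent.SqF9L.FF
import Pool.Agent.SqF9L.Landau

set_option autoImplicit false

/-!
# One-sided bounds for the first mean of `Δ`
-/

open Complex Filter Topology Set MeasureTheory Pool.Agent.Hadamard Pool.Agent.ANT
  Pool.Agent.SqFull

namespace Pool.Agent.SqF9L

/-- The transform of a power. -/
lemma TR_pow {C k : ℝ} {s : ℂ} (hs : k < s.re) :
    SqF9.TR (fun x => C * x ^ k) s = C / (s - k) := by
  unfold SqF9.TR
  have h1 : ∫ t in Ioi (1:ℝ), ((C * t ^ k : ℝ) : ℂ) * (t:ℂ) ^ (-(s + 1)) =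
      ∫ t in Ioi (1:ℝ), (C:ℂ) * (t:ℂ) ^ ((k:ℂ) - s - 1) := by
    refine setIntegral_congr_fun measurableSet_Ioi fun t ht => ?_
    have ht0 : 0 < t := lt_trans zero_lt_one ht
    have htc : (t:ℂ) ≠ 0 := by exact_mod_cast ht0.ne'
    have e : (k:ℂ) - s - 1 = k + -(s + 1) := by ring
    rw [e, Complex.cpow_add _ _ htc]
    push_cast
    rw [Complex.ofReal_cpow ht0.le]
    ring
  rw [h1, integral_const_mul, integral_Ioi_cpow_of_lt (by simp; linarith) zero_lt_one]
  have h2 : (k:ℂ) - s ≠ 0 := by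
    intro h
    have := congrArg Complex.re h
    simp at this
    linarith
  have h3 : s - k ≠ 0 := by
    intro h
    apply h2
    linear_combination -h
  have e2 : (k:ℂ) - s - 1 + 1 = k - s := by ring
  rw [e2, Complex.ofReal_one, Complex.one_cpow]
  field_simp
  ring

lemma integrableOn_pow {C k σ : ℝ} (h : k < σ) :
    IntegrableOn (fun x : ℝ => |C * x ^ k| * x ^ (-(σ + 1))) (Ioi 1) := by
  have h1 : IntegrableOn (fun x : ℝ => |C| * x ^ (k - σ - 1)) (Ioi 1) :=
    (integrableOn_Ioi_rpow_of_lt (by linarith) zero_lt_one).const_mul _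
  refine h1.congr_fun (fun x hx => ?_) measurableSet_Ioi
  have hx0 : 0 < x := lt_trans zero_lt_one hx
  simp only
  rw [abs_mul, abs_of_pos (Real.rpow_pos_of_pos hx0 k), mul_assoc, ← Real.rpow_add hx0]
  congr 2
  ring

/-- A one-sided bound gives the absolute convergence of the transform; `e` is the sign. -/
theorem in_of_side {e : ℝ} (he : e = 1 ∨ e = -1) {κ : ℝ} (h0 : 0 ≤ κ)
    (h : ∀ ε : ℝ, 0 < ε → ∃ C : ℝ, ∀ X : ℝ, 1 ≤ X →
      e * ∫ x in (1:ℝ)..X, Delta x ≤ C * X ^ (1 + κ + ε)) :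
    ∀ σ : ℝ, κ < σ → IntegrableOn (fun x : ℝ => |SqF9.D1 x| * x ^ (-(σ + 1))) (Ioi 1) := by
  intro σ hσ
  set ε := (σ - κ) / 2 with hε
  have hε0 : 0 < ε := by rw [hε]; linarith
  obtain ⟨C, hC⟩ := h ε hε0
  obtain ⟨η, hη, F, hF, hTF⟩ := exists_cont
  set k := κ + ε with hk
  have hk0 : 0 < k := by rw [hk]; linarith
  have he2 : |e| = 1 := by rcases he with rfl | rfl <;> simp
  set D := |C| with hD
  set f : ℝ → ℝ := fun x => D * x ^ k - e * SqF9.D1 x with hf
  have hmD : Measurable SqF9.D1 := SqF9.measurable_D1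
  have hmp : Measurable (fun x : ℝ => D * x ^ k) := (measurable_id.pow_const k).const_mul D
  have hm : Measurable f := hmp.sub (hmD.const_mul e)
  have hnn : ∀ x : ℝ, 1 < x → 0 ≤ f x := by
    intro x hx
    have hx0 : 0 < x := by linarith
    have h1 := hC x hx.le
    have h2 : C * x ^ (1 + κ + ε) ≤ D * x ^ (1 + κ + ε) :=
      mul_le_mul_of_nonneg_right (le_abs_self C) (by positivity)
    have h3 : e * SqF9.D1 x ≤ D * x ^ k := by
      unfold SqF9.D1
      rw [← mul_div_assoc, div_le_iff₀ hx0]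
      refine (h1.trans h2).trans (le_of_eq ?_)
      rw [mul_assoc, ← Real.rpow_add_one hx0.ne']
      congr 2
      rw [hk]
      ring
    show 0 ≤ D * x ^ k - e * SqF9.D1 x
    linarith
  have key : ∀ τ : ℝ, k < τ →
      IntegrableOn (fun x : ℝ => |SqF9.D1 x| * x ^ (-(τ + 1))) (Ioi 1) →
      IntegrableOn (fun x : ℝ => |f x| * x ^ (-(τ + 1))) (Ioi 1) := by
    intro τ hτ h1
    refine Integrable.mono' ((integrableOn_pow (C := D) hτ).add h1) ?_ ?_
    · exact (hm.abs.mul (measurable_id.pow_const (-(τ + 1)))).aestronglyMeasurable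
    · refine (ae_restrict_iff' measurableSet_Ioi).mpr (Eventually.of_forall fun x hx => ?_)
      have hx0 : 0 < x := lt_trans zero_lt_one hx
      rw [Real.norm_eq_abs, abs_of_nonneg (by positivity)]
      simp only [Pi.add_apply]
      rw [← add_mul]
      refine mul_le_mul_of_nonneg_right ?_ (by positivity)
      refine (abs_sub _ _).trans (le_of_eq ?_)
      rw [abs_mul e, he2, one_mul]
  have hIf : ∀ τ : ℝ, max 1 k < τ → IntegrableOn (fun x : ℝ => |f x| * x ^ (-(τ + 1))) (Ioi 1) :=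
    fun τ hτ => key τ ((le_max_right _ _).trans_lt hτ) (ig_one τ ((le_max_left _ _).trans_lt hτ))
  have hL := landau (f := f) hm.aestronglyMeasurable hnn (a := k) (b := max 1 k) hIf
    (G := fun s => D / (s - k) - e * F s) ?_ ?_ σ (by rw [hk, hε]; linarith)
  · -- back to the first mean
    refine Integrable.mono' (hL.add (integrableOn_pow (C := D) (k := k) (σ := σ)
      (by rw [hk, hε]; linarith))) ?_ ?_
    · exact (hmD.abs.mul (measurable_id.pow_const (-(σ + 1)))).aestronglyMeasurable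
    · refine (ae_restrict_iff' measurableSet_Ioi).mpr (Eventually.of_forall fun x hx => ?_)
      have hx0 : 0 < x := lt_trans zero_lt_one hx
      rw [Real.norm_eq_abs, abs_of_nonneg (by positivity)]
      simp only [Pi.add_apply]
      rw [← add_mul]
      refine mul_le_mul_of_nonneg_right ?_ (by positivity)
      have e1 : |SqF9.D1 x| = |e * SqF9.D1 x| := by rw [abs_mul, he2, one_mul]
      have e3 : e * SqF9.D1 x = D * x ^ k - f x := by simp only [hf]; ring
      rw [e1, e3]
      refine (abs_sub _ _).trans (le_of_eq ?_)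
      ring
  · intro x hx
    have hx0 : 0 < x := hk0.trans hx
    have hev : ∀ᶠ s : ℂ in 𝓝 (x:ℂ), DifferentiableAt ℂ (fun s : ℂ => D / (s - k) - e * F s) s := by
      have o1 : ∀ᶠ s : ℂ in 𝓝 (x:ℂ), k < s.re :=
        (isOpen_lt continuous_const Complex.continuous_re).mem_nhds (by simpa using hx)
      have o2 : ∀ᶠ s : ℂ in 𝓝 (x:ℂ), |s.im| < η :=
        (isOpen_lt Complex.continuous_im.abs continuous_const).mem_nhds (by simpa using hη)
      filter_upwards [o1, o2] with s h1 h2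
      have h3 : s - k ≠ 0 := by
        intro h
        have := congrArg Complex.re h
        simp at this
        linarith
      have h4 := hF s (hk0.trans h1) h2
      have h5 : DifferentiableAt ℂ (fun s : ℂ => (D:ℂ) / (s - k)) s :=
        DifferentiableAt.div (differentiableAt_const _)
          (by fun_prop : DifferentiableAt ℂ (fun s : ℂ => s - (k:ℂ)) s) h3
      exact h5.sub (h4.const_mul (e:ℂ))
    exact Complex.analyticAt_iff_eventually_differentiableAt.mpr hev
  · intro s hs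
    have hs1 : 1 < s.re := (le_max_left _ _).trans_lt hs
    have hsk : k < s.re := (le_max_right _ _).trans_lt hs
    have hi1 : IntegrableOn (fun t : ℝ => ((D * t ^ k : ℝ) : ℂ) * (t:ℂ) ^ (-(s + 1))) (Ioi 1) := by
      refine Integrable.mono' (integrableOn_pow (C := D) hsk)
        (SqF9.measurable_kernelf hmp.aestronglyMeasurable s) ?_
      refine (ae_restrict_iff' measurableSet_Ioi).mpr (Eventually.of_forall fun t ht => ?_)
      exact le_of_eq (SqF9.norm_kernelf (fun x : ℝ => D * x ^ k) (lt_trans zero_lt_one ht) s)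
    have hi2 : IntegrableOn (fun t : ℝ => (SqF9.D1 t : ℂ) * (t:ℂ) ^ (-(s + 1))) (Ioi 1) := by
      refine Integrable.mono' (ig_one s.re hs1)
        (SqF9.measurable_kernelf hmD.aestronglyMeasurable s) ?_
      refine (ae_restrict_iff' measurableSet_Ioi).mpr (Eventually.of_forall fun t ht => ?_)
      exact le_of_eq (SqF9.norm_kernelf SqF9.D1 (lt_trans zero_lt_one ht) s)
    have h1 : SqF9.TR f s = SqF9.TR (fun x => D * x ^ k) s - e * SqF9.TR SqF9.D1 s := by
      unfold SqF9.TR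
      rw [← integral_const_mul, ← integral_sub hi1 (hi2.const_mul (e:ℂ))]
      refine setIntegral_congr_fun measurableSet_Ioi fun t _ => ?_
      simp only [hf]
      push_cast
      ring
    rw [h1, TR_pow hsk, hTF s hs1]

theorem in_of_upper {κ : ℝ} (h0 : 0 ≤ κ)
    (h : ∀ ε : ℝ, 0 < ε → ∃ C : ℝ, ∀ X : ℝ, 1 ≤ X →
      ∫ x in (1:ℝ)..X, Delta x ≤ C * X ^ (1 + κ + ε)) :
    ∀ σ : ℝ, κ < σ → IntegrableOn (fun x : ℝ => |SqF9.D1 x| * x ^ (-(σ + 1))) (Ioi 1) := by
  refine in_of_side (e := 1) (Or.inl rfl) h0 fun ε hε => ?_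
  obtain ⟨C, hC⟩ := h ε hε
  exact ⟨C, fun X hX => by rw [one_mul]; exact hC X hX⟩

theorem in_of_lower {κ : ℝ} (h0 : 0 ≤ κ)
    (h : ∀ ε : ℝ, 0 < ε → ∃ C : ℝ, ∀ X : ℝ, 1 ≤ X →
      -(C * X ^ (1 + κ + ε)) ≤ ∫ x in (1:ℝ)..X, Delta x) :
    ∀ σ : ℝ, κ < σ → IntegrableOn (fun x : ℝ => |SqF9.D1 x| * x ^ (-(σ + 1))) (Ioi 1) := by
  refine in_of_side (e := -1) (Or.inr rfl) h0 fun ε hε => ?_
  obtain ⟨C, hC⟩ := h ε hε
  exact ⟨C, fun X hX => by have := hC X hX; linarith⟩

end Pool.Agent.SqF9L
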