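import Pool.Agent.SqF9L.One
import Pool.Agent.SqF9L.ConvI

set_option autoImplicit false

/-!
# The first mean of `Δ` oscillates
-/

open Complex Filter Topology Set MeasureTheory Pool.Agent.Hadamard Pool.Agent.ANT
  Pool.Agent.SqFull

namespace Pool.Agent.SqF9L

/-- A crude bound on an initial segment. -/
lemma bound_initial (Y : ℝ) : ∃ M : ℝ, 0 ≤ M ∧ ∀ X : ℝ, 1 ≤ X → X ≤ Y →
    |∫ x in (1:ℝ)..X, Delta x| ≤ M := by
  obtain ⟨B, hB, h⟩ := Delta_le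
  have hM : SqF9.MN (11 / 20) := by
    refine SqF9.mn_of_pointwise (by norm_num) fun ε hε => ⟨B, fun x hx => (h x hx).trans ?_⟩
    exact mul_le_mul_of_nonneg_left (Real.rpow_le_rpow_of_exponent_le hx (by linarith)) hB.le
  obtain ⟨C, hC⟩ := hM 1 one_pos
  refine ⟨|C| * |Y| ^ (1 + 11 / 20 + 1 : ℝ), by positivity, fun X hX hXY => (hC X hX).trans ?_⟩
  have hX0 : 0 < X := by linarith
  refine mul_le_mul (le_abs_self C) ?_ (by positivity) (abs_nonneg C)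
  exact Real.rpow_le_rpow hX0.le (hXY.trans (le_abs_self Y)) (by norm_num)

/-- A one-sided bound for large `X` is a one-sided bound for all `X ≥ 1`. -/
lemma side_of_large {e : ℝ} (he : e = 1 ∨ e = -1) {κ τ X₀ : ℝ} (hκ : κ ≤ τ) (hτ : 0 ≤ τ)
    (h : ∀ X : ℝ, X₀ ≤ X → 1 ≤ X → e * ∫ x in (1:ℝ)..X, Delta x ≤ X ^ (1 + κ)) :
    ∀ ε : ℝ, 0 < ε → ∃ C : ℝ, ∀ X : ℝ, 1 ≤ X →
      e * ∫ x in (1:ℝ)..X, Delta x ≤ C * X ^ (1 + τ + ε) := by
  intro ε hε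
  obtain ⟨M, hM0, hM⟩ := bound_initial X₀
  have he2 : |e| = 1 := by rcases he with rfl | rfl <;> simp
  refine ⟨1 + M, fun X hX => ?_⟩
  have hX0 : 0 < X := by linarith
  have h1 : 1 ≤ X ^ (1 + τ + ε) := Real.one_le_rpow hX (by linarith)
  rcases le_total X₀ X with hc | hc
  · calc e * ∫ x in (1:ℝ)..X, Delta x ≤ X ^ (1 + κ) := h X hc hX
      _ ≤ X ^ (1 + τ + ε) := Real.rpow_le_rpow_of_exponent_le hX (by linarith)
      _ ≤ (1 + M) * X ^ (1 + τ + ε) := by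
          nlinarith [mul_nonneg hM0 (zero_le_one.trans h1)]
  · calc e * ∫ x in (1:ℝ)..X, Delta x ≤ |e * ∫ x in (1:ℝ)..X, Delta x| := le_abs_self _
      _ = |∫ x in (1:ℝ)..X, Delta x| := by rw [abs_mul, he2, one_mul]
      _ ≤ M := hM X hX hc
      _ ≤ (1 + M) * X ^ (1 + τ + ε) := by nlinarith

/-- The first mean is larger than every power with exponent below `1/12`, arbitrarily far out. -/
theorem osc_upper {κ : ℝ} (hκ : κ < 1 / 12) (X₀ : ℝ) :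
    ∃ X : ℝ, X₀ ≤ X ∧ 1 ≤ X ∧ X ^ (1 + κ) < ∫ x in (1:ℝ)..X, Delta x := by
  by_contra hcon
  push Not at hcon
  refine not_in (κ := max κ 0) (max_lt hκ (by norm_num)) ?_
  exact in_of_side (e := 1) (Or.inl rfl) (le_max_right _ _)
    (side_of_large (e := 1) (Or.inl rfl) (X₀ := X₀) (le_max_left κ 0) (le_max_right _ _)
      fun X h1 h2 => by rw [one_mul]; exact hcon X h1 h2)

/-- The first mean is smaller than minus every power with exponent below `1/12`, arbitrarily far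
out. -/
theorem osc_lower {κ : ℝ} (hκ : κ < 1 / 12) (X₀ : ℝ) :
    ∃ X : ℝ, X₀ ≤ X ∧ 1 ≤ X ∧ ∫ x in (1:ℝ)..X, Delta x < -X ^ (1 + κ) := by
  by_contra hcon
  push Not at hcon
  refine not_in (κ := max κ 0) (max_lt hκ (by norm_num)) ?_
  exact in_of_side (e := -1) (Or.inr rfl) (le_max_right _ _)
    (side_of_large (e := -1) (Or.inr rfl) (X₀ := X₀) (le_max_left κ 0) (le_max_right _ _)
      fun X h1 h2 => by have := hcon X h1 h2; linarith)

/-- Both signs. -/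
theorem osc {κ : ℝ} (hκ : κ < 1 / 12) (X₀ : ℝ) :
    (∃ X, X₀ ≤ X ∧ X ^ (1 + κ) < ∫ x in (1:ℝ)..X, Delta x) ∧
      ∃ X, X₀ ≤ X ∧ ∫ x in (1:ℝ)..X, Delta x < -X ^ (1 + κ) := by
  obtain ⟨X, h1, -, h2⟩ := osc_upper hκ X₀
  obtain ⟨Y, h3, -, h4⟩ := osc_lower hκ X₀
  exact ⟨⟨X, h1, h2⟩, Y, h3, h4⟩

end Pool.Agent.SqF9L
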