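import Pool.Agent.SqF9.Conv3

set_option autoImplicit false

/-!
# The continuation of the transform of the first mean of `Δ` along the positive axis
-/

open Complex Filter Topology Set MeasureTheory Pool.Agent.Hadamard Pool.Agent.ANT
  Pool.Agent.SqFull

namespace Pool.Agent.SqF9L

/-- The nontrivial zeros keep a distance from the real axis. -/
lemma exists_gap : ∃ η : ℝ, 0 < η ∧ ∀ ρ : ℂ, ρ ∈ ntz → η ≤ |ρ.im| := by
  set A : Set ntz := {σ : ntz | |(σ:ℂ).im| ≤ 1} with hA
  have hfin : A.Finite := by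
    refine (SqF9.finite_ntz 2).subset fun σ hσ => ?_
    have h4 := Complex.norm_le_abs_re_add_abs_im (σ:ℂ)
    have h5 : |(σ:ℂ).re| ≤ 1 := abs_le.mpr ⟨by linarith [σ.2.2.1], by linarith [σ.2.2.2]⟩
    simp only [mem_ofPred_eq]
    have h6 : |(σ:ℂ).im| ≤ 1 := hσ
    linarith
  rcases A.eq_empty_or_nonempty with h | h
  · refine ⟨1, one_pos, fun ρ hρ => ?_⟩
    by_contra hcon
    push Not at hcon
    have hm : (⟨ρ, hρ⟩ : ntz) ∈ A := hcon.le
    rw [h] at hm
    exact hm
  · obtain ⟨a, ha, hmin⟩ := Set.exists_min_image A (fun σ => |(σ:ℂ).im|) hfin h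
    refine ⟨|(a:ℂ).im|, abs_pos.mpr (SqF9.ntz_im_ne_zero a.2), fun ρ hρ => ?_⟩
    by_contra hcon
    push Not at hcon
    have h7 : |(a:ℂ).im| ≤ 1 := ha
    have hm : (⟨ρ, hρ⟩ : ntz) ∈ A := hcon.le.trans h7
    have h8 := hmin _ hm
    simp only at h8
    linarith

lemma mem_ntz_of_ZZ {z : ℂ} (hz : 0 < z.re) (h5 : ZZ z = 0) : z ∈ ntz := by
  rw [← xiF_eq_zero_iff]
  unfold ZZ at h5
  have h0 : z ≠ 0 := by rintro rfl; simp at hz
  exact (div_eq_zero_iff.mp h5).resolve_right (mul_ne_zero h0 (Gammaℝ_ne_zero_of_re_pos hz))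

lemma PP_diff {s : ℂ} (hs : 0 < s.re) (h6' : ZZ (6 * s) ≠ 0) : DifferentiableAt ℂ PP s := by
  have h0 : s ≠ 0 := by
    rintro rfl; simp at hs
  have e2 : 0 < (2 * s).re := by simp; linarith
  have e3 : 0 < (3 * s).re := by simp; linarith
  have e6 : 0 < (6 * s).re := by simp; linarith
  have h2 : DifferentiableAt ℂ (fun s => ZZ (2 * s)) s :=
    (ZZ_differentiableAt e2).comp s (by fun_prop : DifferentiableAt ℂ (fun s => 2 * s) s)
  have h3 : DifferentiableAt ℂ (fun s => ZZ (3 * s)) s :=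
    (ZZ_differentiableAt e3).comp s (by fun_prop : DifferentiableAt ℂ (fun s => 3 * s) s)
  have h6 : DifferentiableAt ℂ (fun s => ZZ (6 * s)) s :=
    (ZZ_differentiableAt e6).comp s (by fun_prop : DifferentiableAt ℂ (fun s => 6 * s) s)
  unfold PP
  exact DifferentiableAt.div ((h2.mul h3).mul (by fun_prop)) (DifferentiableAt.mul (by fun_prop) h6)
    (mul_ne_zero h0 h6')

lemma KK_eqn {s : ℂ} (hs : 1 / 2 < s.re) :
    KK s = riemannZeta (2 * s) * riemannZeta (3 * s) / riemannZeta (6 * s) / s -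
        c₁ / (s - 1 / 2) - c₂ / (s - 1 / 3) := by
  have h0 : s ≠ 0 := by
    rintro rfl; simp at hs; linarith
  have h2 : s ≠ 1 / 2 := by
    rintro rfl; norm_num at hs
  have h3 : s ≠ 1 / 3 := by
    rintro rfl; norm_num at hs
  have h6 : s ≠ 1 / 6 := by
    rintro rfl; norm_num at hs
  have a2 : s - 1 / 2 ≠ 0 := sub_ne_zero.mpr h2
  have a3 : s - 1 / 3 ≠ 0 := sub_ne_zero.mpr h3
  have a6 : 6 * s - 1 ≠ 0 := by
    intro h
    apply h6
    linear_combination h / 6
  have n2 : 2 * s ≠ 1 := fun h => h2 (by linear_combination h / 2)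
  have n3 : 3 * s ≠ 1 := fun h => h3 (by linear_combination h / 3)
  have n6 : 6 * s ≠ 1 := fun h => h6 (by linear_combination h / 6)
  have hz : riemannZeta (6 * s) ≠ 0 := riemannZeta_ne_zero_of_one_lt_re (by simp; linarith)
  have hP : PP s = (2 * s - 1) * (3 * s - 1) *
      (riemannZeta (2 * s) * riemannZeta (3 * s) / riemannZeta (6 * s) / s) := by
    unfold PP
    rw [ZZ_eq (s := 6 * s) (by simp; linarith) n6]
    rw [ZZ_eq (s := 2 * s) (by simp; linarith) n2, ZZ_eq (s := 3 * s) (by simp; linarith) n3]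
    generalize riemannZeta (6 * s) = z6 at hz ⊢
    generalize riemannZeta (2 * s) = z2
    generalize riemannZeta (3 * s) = z3
    generalize 6 * s - 1 = b6 at a6 ⊢
    field_simp
  have key : ∀ (u v A c1 c2 : ℂ), u ≠ 0 → v ≠ 0 → v = u + 1 / 6 →
      (2 * u * (3 * v) * A - c1) / u - (2 * u * (3 * v) * A - -c2) / v = A - c1 / u - c2 / v := by
    intro u v A c1 c2 hu hv huv
    field_simp
    rw [huv]
    ring
  unfold KK
  rw [dslope_of_ne _ h2, dslope_of_ne _ h3, slope_def_field, slope_def_field, PP_half, PP_third, hP,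
    ← key (s - 1 / 2) (s - 1 / 3) _ c₁ c₂ a2 a3 (by ring)]
  have e1 : 2 * s - 1 = 2 * (s - 1 / 2) := by ring
  have e2 : 3 * s - 1 = 3 * (s - 1 / 3) := by ring
  rw [e1, e2]

/-- The continuation of the transform of the first mean. -/
theorem exists_cont : ∃ η : ℝ, 0 < η ∧ ∃ F : ℂ → ℂ,
    (∀ s : ℂ, 0 < s.re → |s.im| < η → DifferentiableAt ℂ F s) ∧
    ∀ s : ℂ, 1 < s.re → SqF9.TR SqF9.D1 s = F s := by
  obtain ⟨η, hη, hgap⟩ := exists_gap
  refine ⟨η / 6, by positivity, fun s => KK s / (s + 1), ?_, ?_⟩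
  · intro s hs hs2
    set U : Set ℂ := {z : ℂ | 0 < z.re ∧ |z.im| < η / 6} with hU
    have hO : IsOpen U := (isOpen_lt continuous_const Complex.continuous_re).inter
      (isOpen_lt Complex.continuous_im.abs continuous_const)
    have hP : DifferentiableOn ℂ PP U := by
      rintro z ⟨hz1, hz2⟩
      refine (PP_diff hz1 fun h => ?_).differentiableWithinAt
      have h1 := hgap _ (mem_ntz_of_ZZ (by simp; linarith) h)
      have h2 : (6 * z).im = 6 * z.im := by simp
      rw [h2, abs_mul, abs_of_pos (by norm_num : (0:ℝ) < 6)] at h1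
      linarith
    have m2 : (1 / 2 : ℂ) ∈ U := by
      refine ⟨by norm_num, ?_⟩
      have : ((1 / 2 : ℂ)).im = 0 := by simp
      rw [this, abs_zero]
      positivity
    have m3 : (1 / 3 : ℂ) ∈ U := by
      refine ⟨by norm_num, ?_⟩
      have : ((1 / 3 : ℂ)).im = 0 := by simp
      rw [this, abs_zero]
      positivity
    have h1 : DifferentiableOn ℂ (dslope PP (1 / 2)) U :=
      (Complex.differentiableOn_dslope (hO.mem_nhds m2)).mpr hP
    have h2 : DifferentiableOn ℂ (dslope PP (1 / 3)) U :=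
      (Complex.differentiableOn_dslope (hO.mem_nhds m3)).mpr hP
    have h3 : DifferentiableAt ℂ KK s := (h1.sub h2).differentiableAt (hO.mem_nhds ⟨hs, hs2⟩)
    refine h3.div (by fun_prop) ?_
    intro h
    have := congrArg Complex.re h
    simp at this
    linarith
  · intro s hs
    have h1 : SqF9.TR SqF9.D1 s = SqF9.GG s / (s + 1) := SqF9.cesaro hs
    have h2 : SqF9.GG s = riemannZeta (2 * s) * riemannZeta (3 * s) / riemannZeta (6 * s) / s -
        c₁ / (s - 1 / 2) - c₂ / (s - 1 / 3) := mellin_Delta (by linarith)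
    show SqF9.TR SqF9.D1 s = KK s / (s + 1)
    rw [h1, h2, KK_eqn (by linarith)]

/-- The trivial bound. -/
theorem ig_one : ∀ σ : ℝ, 1 < σ →
    IntegrableOn (fun x : ℝ => |SqF9.D1 x| * x ^ (-(σ + 1))) (Ioi 1) := by
  intro σ hσ
  obtain ⟨B, hB, h⟩ := Delta_le
  have hM : SqF9.MN (11 / 20) := by
    refine SqF9.mn_of_pointwise (by norm_num) fun ε hε => ⟨B, fun x hx => (h x hx).trans ?_⟩
    exact mul_le_mul_of_nonneg_left (Real.rpow_le_rpow_of_exponent_le hx (by linarith)) hB.le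
  exact SqF9.integrableOn_D1 hM (by linarith)

end Pool.Agent.SqF9L
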